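import Mathlib

set_option autoImplicit false

namespace Pool.Agent.Results.MP_2e17cf_an.SaddleBelowLocalMin

open Matrix Filter Topology

/-- The data of a Celis-Dennis-Tapia subproblem in `ℝⁿ`. -/
structure CDT (n : ℕ) where
  /-- the matrix of the objective -/
  Q : Matrix (Fin n) (Fin n) ℝ
  symm : Q.IsSymm
  /-- the linear part of the objective -/
  c : Fin n → ℝ
  /-- the matrices of the two constraints -/
  A : Fin 2 → Matrix (Fin n) (Fin n) ℝ
  posDef : ∀ i, (A i).PosDef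
  /-- the linear parts of the two constraints -/
  b : Fin 2 → Fin n → ℝ
  /-- the constants of the two constraints -/
  d : Fin 2 → ℝ

namespace CDT

variable {n : ℕ} (P : CDT n)

/-- The objective `½ xᵀQx + cᵀx`. -/
noncomputable def f (x : Fin n → ℝ) : ℝ := 1 / 2 * (x ⬝ᵥ P.Q *ᵥ x) + P.c ⬝ᵥ x

/-- The constraint functions `xᵀAᵢx + 2bᵢᵀx + dᵢ`. -/
def g (i : Fin 2) (x : Fin n → ℝ) : ℝ := x ⬝ᵥ P.A i *ᵥ x + 2 * (P.b i ⬝ᵥ x) + P.d i

/-- The feasible set. -/
def feasible : Set (Fin n → ℝ) := {x | ∀ i, P.g i x ≤ 0}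

/-- KKT points; `2(Aᵢx + bᵢ)` is the gradient of the `i`-th constraint. -/
def IsKKT (x : Fin n → ℝ) : Prop := x ∈ P.feasible ∧ ∃ μ : Fin 2 → ℝ, (∀ i, 0 ≤ μ i) ∧
  P.Q *ᵥ x + P.c + ∑ i, μ i • ((2 : ℝ) • (P.A i *ᵥ x + P.b i)) = 0 ∧ ∀ i, μ i * P.g i x = 0

/-- Global minimizers. -/
def IsGlobalMin (x : Fin n → ℝ) : Prop := x ∈ P.feasible ∧ ∀ y ∈ P.feasible, P.f x ≤ P.f y

/-- Local nonglobal minimizers: feasible points with `f(x) ≤ f(y)` for all feasible `y` near `x`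
and with `f(x) > f(y)` for some feasible `y`. -/
def IsLocalNonglobalMin (x : Fin n → ℝ) : Prop := x ∈ P.feasible ∧
  IsLocalMinOn P.f P.feasible x ∧ ∃ y ∈ P.feasible, P.f y < P.f x

end CDT

/-- The instance: minimize `-4/5 x² - y²` subject to `x² + y² ≤ 1` and
`x²/10 + x + 9/10 y² ≤ 981/1000`. -/
noncomputable def P₀ : CDT 2 where
  Q := diagonal ![-8 / 5, -2]
  symm := isSymm_diagonal _
  c := 0
  A := ![1, diagonal ![1 / 10, 9 / 10]]
  posDef := by
    intro i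
    fin_cases i
    · exact Matrix.PosDef.one
    · apply Matrix.PosDef.diagonal
      intro j
      fin_cases j <;> norm_num
  b := ![0, ![1 / 2, 0]]
  d := ![-1, -981 / 1000]

lemma f_eq (x : Fin 2 → ℝ) : P₀.f x = -(4 / 5 * x 0 ^ 2 + x 1 ^ 2) := by
  simp [CDT.f, P₀, dotProduct, mulVec_diagonal, Fin.sum_univ_two]
  ring

lemma g0_eq (x : Fin 2 → ℝ) : P₀.g 0 x = x 0 ^ 2 + x 1 ^ 2 - 1 := by
  simp [CDT.g, P₀, dotProduct, Fin.sum_univ_two]
  ring

lemma g1_eq (x : Fin 2 → ℝ) :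
    P₀.g 1 x = 1 / 10 * x 0 ^ 2 + x 0 + 9 / 10 * x 1 ^ 2 - 981 / 1000 := by
  simp [CDT.g, P₀, dotProduct, mulVec_diagonal, Fin.sum_univ_two]
  ring

lemma mem_iff (x : Fin 2 → ℝ) : x ∈ P₀.feasible ↔ x 0 ^ 2 + x 1 ^ 2 ≤ 1 ∧
    1 / 10 * x 0 ^ 2 + x 0 + 9 / 10 * x 1 ^ 2 ≤ 981 / 1000 := by
  simp only [CDT.feasible, Set.mem_ofPred_eq, Fin.forall_fin_two, g0_eq, g1_eq]
  constructor
  · rintro ⟨h1, h2⟩; constructor <;> linarith
  · rintro ⟨h1, h2⟩; constructor <;> linarith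

/-- The point `(9/10, 0)` is a local nonglobal minimizer. -/
lemma local_tip : P₀.IsLocalNonglobalMin ![9 / 10, 0] := by
  refine ⟨(mem_iff _).2 (by norm_num), ?_, ![0, 1], (mem_iff _).2 (by norm_num), ?_⟩
  · have hopen : {y : Fin 2 → ℝ | 3 / 4 < y 0} ∈ 𝓝[P₀.feasible] ![9 / 10, 0] := by
      apply mem_nhdsWithin_of_mem_nhds
      apply (isOpen_lt continuous_const (continuous_apply 0)).mem_nhds
      norm_num
    filter_upwards [hopen, self_mem_nhdsWithin] with y hy hyF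
    rw [mem_iff] at hyF
    obtain ⟨h1, h2⟩ := hyF
    have hy' : (3 : ℝ) / 4 < y 0 := hy
    rw [f_eq, f_eq]
    simp
    have hx9 : y 0 ≤ 9 / 10 := by nlinarith [sq_nonneg (y 1)]
    nlinarith [mul_nonneg (sub_nonneg.2 hx9) (sub_nonneg.2 hy'.le)]
  · rw [f_eq, f_eq]; norm_num

/-- A feasible point which is not better than all nearby feasible points. -/
lemma not_local {x : Fin 2 → ℝ} (hd : ∃ γ : ℝ → (Fin 2 → ℝ), Tendsto γ (𝓝[>] 0) (𝓝 x) ∧
    ∀ᶠ t in 𝓝[>] (0 : ℝ), γ t ∈ P₀.feasible ∧ P₀.f (γ t) < P₀.f x) :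
    ¬ IsLocalMinOn P₀.f P₀.feasible x := by
  obtain ⟨γ, h1, h2⟩ := hd
  intro h
  have h3 : Tendsto γ (𝓝[>] 0) (𝓝[P₀.feasible] x) :=
    tendsto_nhdsWithin_iff.2 ⟨h1, h2.mono fun _ ht => ht.1⟩
  have h4 := h3.eventually h
  obtain ⟨t, ht1, ht2⟩ := (h4.and h2).exists
  exact absurd ht1 (not_le.2 ht2.2)

/-- Straight moves. -/
lemma not_local_line {x : Fin 2 → ℝ} (hx : x ∈ P₀.feasible) (u v : ℝ)
    (hS : 0 < 4 / 5 * x 0 * u + x 1 * v)
    (hg0 : x 0 ^ 2 + x 1 ^ 2 < 1)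
    (hg1 : 1 / 10 * x 0 ^ 2 + x 0 + 9 / 10 * x 1 ^ 2 < 981 / 1000 ∨
      (1 / 5 * x 0 + 1) * u + 9 / 5 * x 1 * v < 0) :
    ¬ IsLocalMinOn P₀.f P₀.feasible x := by
  rw [mem_iff] at hx
  apply not_local
  refine ⟨fun t => ![x 0 + t * u, x 1 + t * v], ?_, ?_⟩
  · have hc : Continuous fun t : ℝ => (![x 0 + t * u, x 1 + t * v] : Fin 2 → ℝ) := by
      apply continuous_pi
      intro i
      fin_cases i
      · simp; fun_prop
      · simp; fun_prop
    have := (hc.tendsto 0).mono_left (nhdsWithin_le_nhds (s := Set.Ioi 0))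
    convert this using 2
    ext i
    fin_cases i <;> simp
  · -- the three inequalities for small t
    have e1 : ∀ᶠ t in 𝓝[>] (0 : ℝ), (x 0 + t * u) ^ 2 + (x 1 + t * v) ^ 2 < 1 := by
      have hc : Continuous fun t : ℝ => (x 0 + t * u) ^ 2 + (x 1 + t * v) ^ 2 := by fun_prop
      have := (hc.tendsto 0).mono_left (nhdsWithin_le_nhds (s := Set.Ioi 0))
      apply this.eventually_lt_const
      simpa using hg0
    have e2 : ∀ᶠ t in 𝓝[>] (0 : ℝ), 1 / 10 * (x 0 + t * u) ^ 2 + (x 0 + t * u) +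
        9 / 10 * (x 1 + t * v) ^ 2 ≤ 981 / 1000 := by
      rcases hg1 with hg1 | hg1
      · have hc : Continuous fun t : ℝ => 1 / 10 * (x 0 + t * u) ^ 2 + (x 0 + t * u) +
          9 / 10 * (x 1 + t * v) ^ 2 := by fun_prop
        have := (hc.tendsto 0).mono_left (nhdsWithin_le_nhds (s := Set.Ioi 0))
        have h3 := this.eventually_lt_const (u := 981 / 1000) (by simpa using hg1)
        exact h3.mono fun _ h => h.le
      · have hc : Continuous fun t : ℝ => (1 / 5 * x 0 + 1) * u + 9 / 5 * x 1 * v +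
          t * (1 / 10 * u ^ 2 + 9 / 10 * v ^ 2) := by fun_prop
        have := (hc.tendsto 0).mono_left (nhdsWithin_le_nhds (s := Set.Ioi 0))
        have h3 := this.eventually_lt_const (u := 0) (by simpa using hg1)
        filter_upwards [h3, self_mem_nhdsWithin] with t ht ht0
        have ht0' : (0 : ℝ) < t := ht0
        have e : 1 / 10 * (x 0 + t * u) ^ 2 + (x 0 + t * u) + 9 / 10 * (x 1 + t * v) ^ 2 =
            (1 / 10 * x 0 ^ 2 + x 0 + 9 / 10 * x 1 ^ 2) +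
              t * ((1 / 5 * x 0 + 1) * u + 9 / 5 * x 1 * v +
                t * (1 / 10 * u ^ 2 + 9 / 10 * v ^ 2)) := by ring
        rw [e]
        have := mul_neg_of_pos_of_neg ht0' ht
        linarith [hx.2]
    filter_upwards [e1, e2, self_mem_nhdsWithin] with t h1 h2 ht0
    have ht0' : (0 : ℝ) < t := ht0
    refine ⟨(mem_iff _).2 ⟨by simpa using h1.le, by simpa using h2⟩, ?_⟩
    rw [f_eq, f_eq]
    simp only [cons_val_zero, cons_val_one]
    have e : 4 / 5 * (x 0 + t * u) ^ 2 + (x 1 + t * v) ^ 2 = (4 / 5 * x 0 ^ 2 + x 1 ^ 2) +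
        2 * t * (4 / 5 * x 0 * u + x 1 * v) + t ^ 2 * (4 / 5 * u ^ 2 + v ^ 2) := by ring
    have h3 : 0 < t * (4 / 5 * x 0 * u + x 1 * v) := mul_pos ht0' hS
    have h4 : 0 ≤ t ^ 2 * (4 / 5 * u ^ 2 + v ^ 2) := by positivity
    linarith

/-- Moves along the unit circle. -/
lemma not_local_circle {x : Fin 2 → ℝ} (hx : x ∈ P₀.feasible) (h1 : x 0 ^ 2 + x 1 ^ 2 = 1)
    (h0 : x 0 ≠ 0) : ¬ IsLocalMinOn P₀.f P₀.feasible x := by
  rw [mem_iff] at hx
  obtain ⟨e, he, hxe⟩ : ∃ e : ℝ, e ^ 2 = 1 ∧ x 1 = e * Real.sqrt (1 - x 0 ^ 2) := by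
    have h2 : 1 - x 0 ^ 2 = x 1 ^ 2 := by linarith
    rw [h2, Real.sqrt_sq_eq_abs]
    rcases le_total 0 (x 1) with h | h
    · exact ⟨1, by norm_num, by rw [abs_of_nonneg h]; ring⟩
    · exact ⟨-1, by norm_num, by rw [abs_of_nonpos h]; ring⟩
  apply not_local
  refine ⟨fun t => ![(1 - t) * x 0, e * Real.sqrt (1 - ((1 - t) * x 0) ^ 2)], ?_, ?_⟩
  · have hc : Continuous fun t : ℝ =>
        (![(1 - t) * x 0, e * Real.sqrt (1 - ((1 - t) * x 0) ^ 2)] : Fin 2 → ℝ) := by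
      apply continuous_pi
      intro i
      fin_cases i
      · simp; fun_prop
      · simp; fun_prop
    have := (hc.tendsto 0).mono_left (nhdsWithin_le_nhds (s := Set.Ioi 0))
    convert this using 2
    ext i
    fin_cases i
    · simp
    · simp [hxe]
  · have e1 : ∀ᶠ t in 𝓝[>] (0 : ℝ), t < 1 :=
      mem_nhdsWithin_of_mem_nhds (Iio_mem_nhds (by norm_num))
    filter_upwards [e1, self_mem_nhdsWithin] with t ht1 ht0
    have ht0' : (0 : ℝ) < t := ht0
    set w := (1 - t) * x 0 with hw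
    have hx2 : x 0 ^ 2 ≤ 1 := by nlinarith [sq_nonneg (x 1)]
    have hpos : 0 < x 0 ^ 2 := by positivity
    have hw2 : w ^ 2 < x 0 ^ 2 := by
      rw [hw, mul_pow]
      have : (1 - t) ^ 2 < 1 := by nlinarith
      nlinarith
    have hs : Real.sqrt (1 - w ^ 2) ^ 2 = 1 - w ^ 2 := Real.sq_sqrt (by linarith)
    have hy2 : (e * Real.sqrt (1 - w ^ 2)) ^ 2 = 1 - w ^ 2 := by rw [mul_pow, he, hs, one_mul]
    refine ⟨(mem_iff _).2 ⟨?_, ?_⟩, ?_⟩
    · simp only [cons_val_zero, cons_val_one]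
      rw [hy2]; linarith
    · simp only [cons_val_zero, cons_val_one]
      rw [hy2]
      have h3 : -(4 / 5) * x 0 ^ 2 + x 0 ≤ 81 / 1000 := by
        have := hx.2
        nlinarith
      rcases le_or_gt (x 0) 0 with hneg | hp
      · have : w ≤ 0 := by
          rw [hw]; exact mul_nonpos_of_nonneg_of_nonpos (by linarith) hneg
        nlinarith [sq_nonneg w]
      · have hlt : w < x 0 := by rw [hw]; nlinarith
        have hw0 : 0 < w := by rw [hw]; exact mul_pos (by linarith) hp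
        have hx1 : x 0 ≤ 1 := by nlinarith
        have hsmall : x 0 < 1 / 2 := by
          by_contra hcon
          push Not at hcon
          nlinarith
        nlinarith
    · rw [f_eq, f_eq]
      simp only [cons_val_zero, cons_val_one]
      rw [hy2]
      nlinarith

/-- Every local nonglobal minimizer has value at least `-7/10`. -/
lemma value_ge {x : Fin 2 → ℝ} (h : P₀.IsLocalNonglobalMin x) : -(7 / 10) ≤ P₀.f x := by
  obtain ⟨hx, hloc, y, hy, hlt⟩ := h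
  by_contra hcon
  push Not at hcon
  have hx' := (mem_iff _).1 hx
  have hy' := (mem_iff _).1 hy
  rw [f_eq] at hcon
  rw [f_eq, f_eq] at hlt
  have hS1 : 4 / 5 * x 0 ^ 2 + x 1 ^ 2 < 1 := by
    have : 4 / 5 * y 0 ^ 2 + y 1 ^ 2 ≤ 1 := by nlinarith [sq_nonneg (y 0)]
    linarith
  rcases eq_or_lt_of_le hx'.1 with h1 | h1
  · refine not_local_circle hx h1 ?_ hloc
    intro h0
    rw [h0] at h1 hS1
    nlinarith
  · rcases eq_or_lt_of_le hx'.2 with h2 | h2
    · -- on the boundary of the second ellipse only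
      have hx0 : x 0 < 3 / 5 := by
        by_contra hc
        push Not at hc
        have h9 : x 0 ≤ 9 / 10 := by nlinarith [sq_nonneg (x 1)]
        nlinarith [mul_nonneg (sub_nonneg.2 h9) (sub_nonneg.2 hc)]
      have hy0 : x 1 ^ 2 ≠ 0 := by
        intro h0
        have : x 0 ^ 2 ≤ 1 := by nlinarith
        rw [h0] at h2
        nlinarith
      have hy1 : x 1 ≠ 0 := fun h => hy0 (by rw [h]; norm_num)
      -- direction `(-1, k / y)` with `4/5 x < k < (1 + x/5) * 5/9`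
      refine not_local_line hx (-1) ((4 / 5 * x 0 + (1 + x 0 / 5) * (5 / 9)) / 2 / x 1) ?_ h1
        (Or.inr ?_) hloc
      · have : x 1 * ((4 / 5 * x 0 + (1 + x 0 / 5) * (5 / 9)) / 2 / x 1) =
            (4 / 5 * x 0 + (1 + x 0 / 5) * (5 / 9)) / 2 := by field_simp
        rw [this]
        linarith
      · have : 9 / 5 * x 1 * ((4 / 5 * x 0 + (1 + x 0 / 5) * (5 / 9)) / 2 / x 1) =
            9 / 5 * ((4 / 5 * x 0 + (1 + x 0 / 5) * (5 / 9)) / 2) := by field_simp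
        rw [this]
        linarith
    · refine not_local_line hx (x 0) (x 1) ?_ h1 (Or.inl h2) hloc
      nlinarith

/-- The point `(-1, 0)` is a KKT point. -/
lemma kkt_saddle : P₀.IsKKT ![-1, 0] := by
  refine ⟨(mem_iff _).2 (by norm_num), ![4 / 5, 0], ?_, ?_, ?_⟩
  · intro i; fin_cases i <;> norm_num
  · ext i
    fin_cases i
    · simp [P₀, Fin.sum_univ_two]; norm_num
    · simp [P₀, Fin.sum_univ_two]
  · intro i
    fin_cases i
    · simp [g0_eq]
    · simp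

/-- Some instance of the CDT subproblem has a local nonglobal minimizer and a KKT point which is
not a global minimizer and whose value is smaller than the infimum of the values of all local
nonglobal minimizers. -/
theorem result : ∃ (n : ℕ) (P : CDT n) (v : ℝ) (x : Fin n → ℝ), 1 ≤ n ∧
    P.feasible.Nonempty ∧ (∃ y, P.IsLocalNonglobalMin y) ∧
    IsGLB {r | ∃ y, P.IsLocalNonglobalMin y ∧ r = P.f y} v ∧
    P.IsKKT x ∧ ¬ P.IsGlobalMin x ∧ P.f x < v := by
  refine ⟨2, P₀, sInf {r | ∃ y, P₀.IsLocalNonglobalMin y ∧ r = P₀.f y}, ![-1, 0], by norm_num,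
    ⟨_, local_tip.1⟩, ⟨_, local_tip⟩, ?_, kkt_saddle, ?_, ?_⟩
  · have hne : {r | ∃ y, P₀.IsLocalNonglobalMin y ∧ r = P₀.f y}.Nonempty :=
      ⟨P₀.f ![9 / 10, 0], ![9 / 10, 0], local_tip, rfl⟩
    refine isGLB_csInf hne ⟨-(7 / 10), ?_⟩
    rintro r ⟨y, hy, rfl⟩
    exact value_ge hy
  · rintro ⟨-, h⟩
    have := h ![0, 1] ((mem_iff _).2 (by norm_num))
    rw [f_eq, f_eq] at this
    norm_num at this
  · have h1 : -(7 / 10) ≤ sInf {r | ∃ y, P₀.IsLocalNonglobalMin y ∧ r = P₀.f y} := by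
      have hne : {r | ∃ y, P₀.IsLocalNonglobalMin y ∧ r = P₀.f y}.Nonempty :=
        ⟨P₀.f ![9 / 10, 0], ![9 / 10, 0], local_tip, rfl⟩
      refine le_csInf hne ?_
      rintro r ⟨y, hy, rfl⟩
      exact value_ge hy
    have h2 : P₀.f ![-1, 0] = -(4 / 5) := by rw [f_eq]; norm_num
    rw [h2]
    linarith

end Pool.Agent.Results.MP_2e17cf_an.SaddleBelowLocalMin
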